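import Pool.Agent.H35.UE.Lit
import Pool.Agent.H35.NS2.All
import Pool.Agent.H93.G2.Smz

/-!
# H70-UF-EV: the upper bound with exponent up to `δ` for EVERY nilpotent group (MP_b39724_nt)
-/

set_option autoImplicit false

open H38.ML.Spec

namespace H70.UF

theorem ub_every (n : ℕ) (hn : 2 ≤ n) (G : Subgroup (Equiv.Perm (Fin n)))
    (hG : MulAction.IsPretransitive G (Fin n)) (hnil : Group.IsNilpotent G) :
    ∃ m : ℕ, 0 < m ∧ ∀ K : IntermediateField ℚ (AlgebraicClosure ℚ), ∀ _ : NumberField K,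
      (∃ z : K, IsPrimitiveRoot z m) → ∀ δ : ℝ, 0 < δ → ∃ C : ℝ, 0 < C ∧ ∀ B : ℝ, 3 ≤ B →
        nK K (AlgebraicClosure ℚ) G B ≤
          ((⌊C * (B ^ (1 / (indG G : ℝ)) *
            Real.log B ^ ((betaAll K (AlgebraicClosure ℚ) G : ℝ) - 1 + δ))⌋₊ : ℕ) : ℕ∞) := by
  obtain ⟨-, ⟨g₀, hg₀, hi₀⟩, -, -, -⟩ := H38.BG.pidx_pos hn G hG
  have hpr := H38.ML.prime_of_least G g₀ hg₀ hi₀
  have hI : ∀ h ∈ H51.PF.Li G, h ^ orderOf g₀ = 1 := fun h hh => by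
    rw [← H77.UX.trg hn hG hnil h g₀ hh.1 hg₀ hh.2 hi₀]
    exact pow_orderOf_eq_one h
  rcases eq_or_ne (orderOf g₀) 2 with h2 | h2
  · rw [h2] at hI
    obtain ⟨m, hm, h⟩ := H35.NS2.ube_smx n hn G hG hnil 2 Nat.prime_two H93.G2.smx2 hI
    refine ⟨m, hm, fun K _ hz δ hδ => ?_⟩
    obtain ⟨C, hC, h1⟩ := h K hz δ hδ
    refine ⟨C, hC, fun B hB => ?_⟩
    obtain ⟨k, hk, hk2⟩ := h1 B hB
    rw [hk]
    exact Nat.cast_le.2 (Nat.le_floor hk2)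
  · exact H35.UE.ub_lit n hn G hG hnil (orderOf g₀) hpr h2 (fun h hh hi => hI h ⟨hh, hi⟩)

end H70.UF
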